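import Mathlib

/-!
# MP_e26d5c_nt (Jones–Manes): `[C(φ) : G(φ)]` is finite for every nonzero integer `k`, `φ = k(x²+1)/x`

Interface of the project (leader helper441).  Put `x = I y`: then `φ` becomes
`ρ(y) = k (y - 1/y)` and the preimages of `I` under `φ` become the preimages of `1` under `ρ`
(`Lev k n` below; all of them are real).  The critical orbit `x₀ = 1`, `x_{m+1} = k (x_m + 1/x_m)`
has numerators / denominators `PQ k m` (not reduced) and `D k m = P_m² + Q_m²`.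

Every piece is one of the closed propositions `S_XXX` below, with its complete proof in the comment.
A piece is a file `Pool/Agent/Run7/<you>/JM/<PIECE>.lean` with `theorem t_<PIECE>` of the type
given in the comment.
-/

set_option autoImplicit false

namespace Run7.h441.JM

/-- the algebraic closure of `ℚ` -/
abbrev Ω : Type := AlgebraicClosure ℚ

/-- its Galois group -/
abbrev Γ : Type := Ω ≃ₐ[ℚ] Ω

/-- numerators and denominators of the critical orbit `x₀ = 1`, `x_{m+1} = k (x_m + 1/x_m)` -/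
def PQ (k : ℤ) : ℕ → ℤ × ℤ
  | 0 => (1, 1)
  | n + 1 => (k * ((PQ k n).1 ^ 2 + (PQ k n).2 ^ 2), (PQ k n).1 * (PQ k n).2)

/-- `D_m = P_m² + Q_m²` -/
def D (k : ℤ) (n : ℕ) : ℤ := (PQ k n).1 ^ 2 + (PQ k n).2 ^ 2

/-- level `n` of the preimage tree of `1` under `ρ(y) = k (y - 1/y)`, in any field
(`y = 0` satisfies the equation only if `k = 0` in `L`) -/
def Lev (k : ℤ) {L : Type} [Field L] : ℕ → L → Prop
  | 0, y => y = 1
  | n + 1, y => ∃ u : L, Lev k n u ∧ (k : L) * (y ^ 2 - 1) = u * y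

/-- **PRD** (product formula).  `theorem t_PRD : S_PRD`.

Proof.  Children of `u` (solutions of `k (y² - 1) = u y`): for one root `y` the other is `-1/y`,
`y - 1/y = u/k`.  For all `P, Q ∈ Ω`:
`(Q² y² + P²)(Q² y⁻² + P²) = (P²+Q²)² + P²Q²u²/k² = k⁻² ((k(P²+Q²))² + (PQ)² u²)`.
So with `F n P Q = ∏_{v ∈ Y_n} (Q² v² + P²)` one has
`k^(2^n) * F n P Q = F (n-1) (k(P²+Q²)) (PQ)` as long as the two children of every `u ∈ Y_{n-1}`
are different (i.e. `u² + 4k² ≠ 0`); different `u` have disjoint children.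
`F 0 P Q = P² + Q²`.  Start at `(P, Q) = PQ k 1 = (2k, 1)`:
`F n (2k) 1 * k^(2^(n+1) - 2) = P_{n+1}² + Q_{n+1}² = D k (n+1)`.
Since `P_m = k D_{m-1} ≠ 0` the right side is a positive integer, so `v² + 4k² ≠ 0` for all
`v ∈ Y_n`, and the induction goes on (induct on `n` for all `P, Q` at once, or first the
distinctness by strong induction).  Use `Finset.prod_biUnion` or fibres of `v ↦ ρ v`. -/
def S_PRD : Prop := ∀ k : ℤ, k ≠ 0 → ∀ n : ℕ,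
  {y : Ω | Lev k n y}.Finite ∧ (∀ y : Ω, Lev k n y → y ^ 2 + 4 * (k : Ω) ^ 2 ≠ 0) ∧
  ∀ Y : Finset Ω, (∀ y : Ω, y ∈ Y ↔ Lev k n y) →
    (k : Ω) ^ (2 ^ (n + 1) - 2) * ∏ v ∈ Y, (v ^ 2 + 4 * (k : Ω) ^ 2) = ((D k (n + 1) : ℤ) : Ω)

/-- **COP** (coprimality).  `theorem t_COP : S_COP`.

Proof.  `q ∤ 2k` prime.  By induction `q` does not divide both `P_m` and `Q_m` (if
`q ∣ P_{m+1} = k D_m` then `q ∣ D_m = P_m² + Q_m²`; if moreover `q ∣ P_m Q_m` then `q` divides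
both).  If `q ∣ D_i` (`i ≥ 1`) then `q ∣ P_{i+1}`, `q ∤ Q_{i+1}`, so `q ∤ D_{i+1}`, `q ∤ P_{i+2}`,
`q ∣ Q_{i+2}`, and from then on `q ∤ P_m`, `q ∣ Q_m`, so `q ∤ D_m` for all `m > i`. -/
def S_COP : Prop := ∀ k : ℤ, k ≠ 0 → ∀ q : ℕ, q.Prime → ¬ ((q : ℤ) ∣ 2 * k) →
  ∀ i j : ℕ, 1 ≤ i → i < j → (q : ℤ) ∣ D k i → ¬ ((q : ℤ) ∣ D k j)

/-- **NSQ** (non-squares).  `theorem t_NSQ : S_NSQ`.

Proof.
* `k` odd: for `m ≥ 1`, one of `P_m, Q_m` is odd and the other is `2 mod 4`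
  (`m = 1`: `(2k, 1)`; for `m ≥ 2` `P_m` is odd and `Q_m ≡ 2 mod 4`); so `D_m ≡ 5 mod 8`.
* `k ≡ 2 mod 4`: modulo `2k+1`: `P_m ≡ ± Q_m` and `Q_m` is a unit (induction, `2k ≡ -1`), so
  `D_m ≡ 2 Q_m²`; `D_m = z²` would make `2` a square modulo every prime divisor of `2k+1`, but
  `2k + 1 ≡ 5 mod 8`, so `|2k+1| ≡ 3, 5 mod 8` has a prime divisor `≡ 3, 5 mod 8` (or
  `jacobiSym`: `J(2 | |2k+1|) = -1`).
* `n = 1`: `(2|k|)² < 4k²+1 < (2|k|+1)²`.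
* `k ≡ 4 mod 8`, `n ≥ 2`: there are `a` and odd `p, q` with `{P_n, Q_n} = {2^a p, 2^(a+1) q}`
  (`n = 2`: `P_2 = k D_1` has valuation 2, `Q_2 = 2k` valuation 3; then for `n ≥ 3` always
  `P_n = 2^(a+1) p`, `Q_n = 2^a q`); so `D_n = 4^a (odd² + 4 odd²)`, `odd² + 4 odd² ≡ 5 mod 8`.
* `8 ∣ k`, `c = v₂(k)`, `n` even: again `{P_n, Q_n} = {2^a p, 2^(a+1) q}`, `p, q` odd
  (`n = 2`: `P_2 = k D_1`, `Q_2 = 2k`).  For `n` odd, `n ≥ 3`: `P_n = 2^(a+c-1) p`, `Q_n = 2^a q`.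
  Step odd → even: `P' = k 4^a (4^(c-1) p² + q²) = 2^(c+2a) odd`, `Q' = 2^(2a+c-1) odd`.
  Step even → odd: `P' = 2^(c+2a) odd`, `Q' = 2^(2a+1) odd`.
* `8 ∣ k`, `n = 3`: `D_3 = (2k²)² M`, `M = κ²(D_1²+4)² + D_1²`, `κ = |k|/2 ≥ 1`, `D_1 = 4k²+1`,
  and `(κ(D_1²+4))² < M < (κ(D_1²+4)+1)²`. -/
def S_NSQ : Prop := ∀ k : ℤ, k ≠ 0 → ∀ n : ℕ, 1 ≤ n →
  (¬ ((8 : ℤ) ∣ k) ∨ Even n ∨ n = 1 ∨ n = 3) → ¬ IsSquare (D k n)

/-- **LOC** (a 2-adic vertex).  `theorem t_LOC : S_LOC`.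

Proof.  In `ℚ_[2]`, `‖k‖ ≤ 1/8`.  Square criterion: if `‖x - 1‖ ≤ 1/8` then `x = s²` with
`‖s - 1‖ ≤ 1/4` (Hensel), and then `‖s - 1‖ = 2 ‖x - 1‖`.
(1) *large child*: if `‖u‖ ≥ 1`, then `1 + 4k²/u² = s²`, `‖s-1‖ ≤ 1/4`, and
`y = u (1 + s) / (2k)` satisfies `k (y² - 1) = u y`, `‖y‖ = ‖u‖/‖k‖`.  Starting at `1`, `j + 1`
times (`j = n - 3 ≥ 1`), get `y ∈ Lev k (j+1)` with `‖y‖ = ‖k‖^{-(j+1)}`.
(2) `w = -1/y ∈ Lev k (j+1)` (the sibling), `‖w‖ = ‖k‖^{j+1}`, `τ = w/(2k)`, `‖τ‖ ≤ 1/4`,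
`1 + τ² = s²`, `‖s - 1‖ ≤ 1/8`; `y₂ = τ + s ∈ Lev k (j+2)`, `‖y₂ - 1‖ ≤ 1/4`.
(3) `y₂` is a unit; let `y₃ = y₂ (1 + s')/(2k)` be its large child, `s'² = 1 + 4k²/y₂²`;
`v = -1/y₃ = -2k/(y₂ (1+s')) ∈ Lev k (j+3)`, and
`v² + 4k² = v² (1 + y₂² (1+s')²)`.  Here `(1+s')/2` is a unit, so
`1 + y₂²(1+s')² = 1 + 4 η²` with a unit `η`, which is `≡ 5 mod 8`, not a square. -/
def S_LOC : Prop := ∀ k : ℤ, k ≠ 0 → (8 : ℤ) ∣ k → ∀ n : ℕ, 4 ≤ n →
  ∃ v : ℚ_[2], Lev k n v ∧ ¬ IsSquare (v ^ 2 + 4 * (k : ℚ_[2]) ^ 2)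

/-- **TRS** (transitivity, i.e. `φ` is stable).  `theorem t_TRS : S_PRD → S_NSQ → S_LOC → S_TRS`.

Proof.  Induction on `n`.  Suppose `Γ` is transitive on level `n`, and `y, y'` are on level `n+1`
with parents `u, u'`.  Moving `u` to `u'` we may assume `u = u'`, so `y' ∈ {y, -1/y}`.  Suppose
`y' = -1/y ≠ y` and no element of `Γ` maps `y` to `-1/y`.  Then every `g ∈ Γ` with `g u = u` fixes
`y`.  Let `O` be the orbit of `y`: it contains exactly one child of every vertex of level `n`.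
(a) If `D k (n+1)` is not a square: `P = ∏_{z ∈ O} k (z + 1/z)` is fixed by `Γ`, so rational
(`Ω/ℚ` is Galois), and `P² = ∏_{z∈O} ((k (z - 1/z))² + 4k²) = ∏_{u ∈ Y_n} (u² + 4k²)
= D k (n+1) / k^(2^(n+1)-2)` by PRD, so `D k (n+1)` is a rational square, contradiction.
(b) Otherwise by NSQ `8 ∣ k` and `n + 1 ≥ 5`.  Take `v ∈ ℚ_[2]` from LOC and a ring homomorphism
`ι : Ω → AlgebraicClosure ℚ_[2]`.  By induction every element of `Lev k n` in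
`AlgebraicClosure ℚ_[2]` is `ι` of an element of `Lev k n` in `Ω` (the two children of `ι u'` are
`ι` of the two children of `u'`); let `ι v' = v`.  Choose `h ∈ Γ` with `h u = v'` and `z = h y`,
a child of `v'` fixed by every `g ∈ Γ` with `g v' = v'`.  By Galois theory
(`InfiniteGalois.fixedField_fixingSubgroup`) `z ∈ ℚ(v')`, so `ι z ∈ ℚ_[2]`, and
`(k (ιz + 1/ιz))² = v² + 4k²`, contradiction. -/
def S_TRS : Prop := ∀ k : ℤ, k ≠ 0 → ∀ n : ℕ, ∀ y y' : Ω, Lev k n y → Lev k n y' →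
  ∃ g : Γ, g y = y'

/-- **RAM** (ramification).  `theorem t_RAM : S_PRD → S_RAM`.

Proof.  Let `L = ℚ(Y_n) ⊂ Ω` (`Y_n` the finite level `n`, stable under `Γ`), a finite Galois
extension of `ℚ` containing `x` and `𝔔` a prime of `𝓞 L` above `q`.  For `y ∈ Y_m` (`m ≤ n`)
`k^m y` is integral (if `k^m u` is integral, `Z = k^(m+1) y` satisfies
`Z² - (k^m u) Z - k^(2m+2) = 0`).
*The inertia group is trivial:* let `σ ∈ Gal(L/ℚ)` with `σ z - z ∈ 𝔔` for all `z ∈ 𝓞 L`; by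
induction on `m ≤ n`, `σ` fixes `Y_m`: let `u ∈ Y_m` be fixed, `y` a child of `u`; then `σ y` is
`y` or `-1/y`.  If `σ y = -1/y` then `k^(m+1) (y + 1/y) ∈ 𝔔`, so its square
`k^(2m) (u² + 4k²) ∈ 𝔔`; multiplying by the other factors of
`∏_{u' ∈ Y_m} k^(2m) (u'² + 4k²) = k^(2m·2^m - (2^(m+1) - 2)) D k (m+1)` (PRD; all factors are
integral) gives `q ∣ k^A D k (m+1)`, a contradiction for `m + 1 ≤ n`.
*Conclusion:* by `Ideal.card_inertia_eq_ramificationIdxIn` the ramification index of `𝔔` is `1`,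
so `v_q(d) = v_𝔔(d) = v_𝔔(x²) = 2 v_𝔔(x)` is even. -/
def S_RAM : Prop := ∀ k : ℤ, k ≠ 0 → ∀ (n q : ℕ), q.Prime → ¬ ((q : ℤ) ∣ 2 * k) →
  (∀ j : ℕ, 1 ≤ j → j ≤ n → ¬ ((q : ℤ) ∣ D k j)) →
  ∀ (x : Ω) (d : ℤ), d ≠ 0 → x ^ 2 = (d : Ω) →
    (∀ g : Γ, (∀ y : Ω, Lev k n y → g y = y) → g x = x) → Even (padicValInt q d)

/-- **KSL** (abstract Kummer–Stoll lemma).  `theorem t_KSL : S_KSL`.

Proof.  Let `G₀` be the pointwise stabiliser of `Y` (normal), and `𝒲` the set of subsets `S ⊆ Y`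
such that `∏_{v∈S} t v` is fixed by `G₀`.  `g ∈ G₀` maps `t v` to `± t v`.  `𝒲` is closed under
symmetric difference (`t v ≠ 0`, `(t v)²` is fixed by `G₀`) and under `G` (as
`∏_{v ∈ hS} t v = ± h (∏_{v∈S} t v)`).  By hypothesis `Y ∉ 𝒲`.
*`𝒲 = {∅}`:* otherwise `#𝒲` is even (`S ↦ S ∆ S₀` is a fixed-point-free involution), `G` acts on
`𝒲` through a finite `2`-group, so the number of fixed points is even
(`IsPGroup.card_modEq_card_fixedPoints`), and there is a `G`-invariant nonempty `S ⊆ Y`; by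
transitivity `S = Y`, contradiction.
*Conclusion:* `s : G₀ → (Y → ZMod 2)`, `g (t v) = (-1)^{s g v} t v`, is a homomorphism; if the
indicator of `v` is not in its image `V`, there is a linear functional `f = ∑ c_w (coordinate w)`
with `f = 0` on `V` and `c_v = 1`; then `S = {w | c_w = 1}` is in `𝒲` and contains `v`. -/
def S_KSL : Prop := ∀ (G : Type) [Group G] (L : Type) [Field L] [MulSemiringAction G L]
  (Y : Finset L) (t : L → L) (N : ℕ), (2 : L) ≠ 0 →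
  (∀ g : G, ∀ y ∈ Y, g • y ∈ Y) → (∀ y ∈ Y, ∀ y' ∈ Y, ∃ g : G, g • y = y') →
  (∀ g : G, ∀ y ∈ Y, g ^ (2 ^ N) • y = y) → (∀ y ∈ Y, t y ≠ 0) →
  (∀ g : G, ∀ y ∈ Y, g • t y = t (g • y) ∨ g • t y = - t (g • y)) →
  (∃ g : G, (∀ y ∈ Y, g • y = y) ∧ g • (∏ y ∈ Y, t y) ≠ ∏ y ∈ Y, t y) →
  ∀ v ∈ Y, ∃ g : G, (∀ y ∈ Y, g • y = y) ∧ g • t v = - t v ∧ ∀ y ∈ Y, y ≠ v → g • t y = t y

/-- **SUR** (maximality of one level).
`theorem t_SUR : S_PRD → S_COP → S_RAM → S_KSL → S_TRS → S_SUR`.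

Proof.  Let `Y` be the finite level `n` and for `v ∈ Y` let `r v` be a child, `t v = k (r v + 1/r v)`,
so `(t v)² = v² + 4k² ≠ 0`.  `Γ` acts on `Y`, transitively by TRS, and `g^(2^n)` is trivial on
level `n` (induction: if `g' = g^(2^n)` fixes level `n` then it maps children `{y, -1/y}` to
themselves, so `g'²` fixes level `n+1`).  `(g (t v))² = (g v)² + 4k² = (t (g v))²`.
The product `P = ∏_{v∈Y} t v` is not fixed by the pointwise stabiliser of `Y`: otherwise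
`x = k^((2^(n+1)-2)/2) P` is fixed by it and `x² = D k (n+1) =: d > 0` by PRD.  For every prime
`q ∤ 2k` the valuation `v_q(d)` is even: if `q ∤ d` it is `0`; if `q ∣ D k (n+1)` then by COP
`q ∤ D k j` for `1 ≤ j ≤ n` and RAM applies.  Write `d = e z²` with `e` squarefree
(`Nat.sq_mul_squarefree`): every prime divisor of `e` divides `2k`, so `e ∣ 2k`, contradiction.
Now KSL (`G = Γ`, `L = Ω`, `N = n`) gives `g` with `g (t v) = - t v`, `g (t u) = t u` for the other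
`u ∈ Y`; the children of `u` are `(u ± t u)/(2k)`. -/
def S_SUR : Prop := ∀ k : ℤ, k ≠ 0 → ∀ n : ℕ, (∀ e z : ℤ, e ∣ 2 * k → D k (n + 1) ≠ e * z ^ 2) →
  ∀ v : Ω, Lev k n v → ∃ g : Γ, (∀ y : Ω, Lev k n y → g y = y) ∧
    (∀ y : Ω, (k : Ω) * (y ^ 2 - 1) = v * y → g y ≠ y) ∧
    (∀ u y : Ω, Lev k n u → u ≠ v → (k : Ω) * (y ^ 2 - 1) = u * y → g y = y)

/-- **CNJ** (complex conjugation).  `theorem t_CNJ : S_CNJ`.

Proof.  Choose a ring homomorphism `ι : Ω → ℂ` and let `c` be the automorphism of `Ω` with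
`ι (c x) = conj (ι x)` (`Ω` is normal over `ℚ`; e.g. `AlgHom.restrictNormal'`).  `c I = -I`.
By induction every element of level `n` is mapped to a real number by `ι`: if `u` is real and
`k (y² - 1) = u y`, then `y` is a root of a real quadratic polynomial with discriminant
`u² + 4k² > 0` (or: `y` non-real would give `y` and `conj y` as the two roots, but the product of
the roots is `-1 < 0`). -/
def S_CNJ : Prop := ∀ k : ℤ, k ≠ 0 → ∀ I : Ω, I ^ 2 = -1 →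
  ∃ c : Γ, c I = - I ∧ ∀ (n : ℕ) (y : Ω), Lev k n y → c y = y

/-- **CMP** (compactness).  `theorem t_CMP : S_CMP`.

Proof.  `Γ = Gal(Ω/ℚ)` is compact in the Krull topology (instance `CompactSpace Gal(K/k)`,
Mathlib.FieldTheory.Galois.Profinite).  For every `y` and `z` the set `{g | g y = z}` is closed
(empty or a coset of the stabiliser of `y`, which is open, see `krullTopology`).  So
`C n = {g | ∀ y ∈ B n, g y = σ y}` is closed, nonempty and decreasing; the intersection is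
nonempty (`IsCompact.nonempty_iInter_of_directed_nonempty_isCompact_isClosed`). -/
def S_CMP : Prop := ∀ (B : ℕ → Set Ω) (σ : Ω → Ω), Monotone B →
  (∀ n, ∃ g : Γ, ∀ y ∈ B n, g y = σ y) → ∃ g : Γ, ∀ n, ∀ y ∈ B n, g y = σ y

/-- **MORD** (Mordell's conjecture for `y² = g(x²)`, `g` an integral cubic with distinct nonzero
roots in the number field `K`).  `theorem t_MORD : S_MORD`.
Generalisation (roots in `K` instead of `ℚ`) of the starting file `Pool/Agent/H106R2/Mordell.lean`.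
RESERVED for helper441. -/
def S_MORD : Prop := ∀ (K : Type) [Field K] [NumberField K] (g0 g1 g2 g3 : ℤ) (e1 e2 e3 : K),
  g3 ≠ 0 → e1 ≠ 0 → e2 ≠ 0 → e3 ≠ 0 → e1 ≠ e2 → e1 ≠ e3 → e2 ≠ e3 →
  (g2 : K) = - (g3 * (e1 + e2 + e3)) → (g1 : K) = g3 * (e1 * e2 + e1 * e3 + e2 * e3) →
  (g0 : K) = - (g3 * (e1 * e2 * e3)) →
  {x : K | ∃ y : K, y ^ 2 = (g3 : K) * x ^ 6 + (g2 : K) * x ^ 4 + (g1 : K) * x ^ 2 + (g0 : K)}.Finite

/-- **MOR** (`D_n` is `e` times a square for only finitely many `n`).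
`theorem t_MOR : S_MORD → S_MOR`.

Proof.  There are finitely many divisors `e` of `2k`, and `D_n > 0`, so fix `e > 0`; it is enough
that `{n | ∃ z, D k n = e z²}` is finite.  Put `x_m = P_m/Q_m ∈ ℚ` (`P_m, Q_m ≠ 0`),
`x_{m+1} = k (x_m + 1/x_m)`, so `|x_{m+1}| > |x_m|`.  For `n ≥ 2` let `w = x_{n-2}`,
`X = (w² - 1)/(w² + 1)`; `n ↦ X` is injective (`w²` is strictly increasing).  With
`s = x_{n-1}`, `T = (w²+1)²/w²`: `s² = k² T`, `T = 4/(1-X²)`,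
`x_n² + 1 = ((k² T + 1)² + T)/T` and if `x_n² + 1 = e y²` (`y = z/Q_n`) then `Y = 2 e y (1 - X²)`
satisfies `Y² = e (1 - X²) ((4k²+1-X²)² + 4 (1-X²))`
`= g₃ X⁶ + g₂ X⁴ + g₁ X² + g₀` with `g₃ = -e`, `g₂ = e (8k²+7)`,
`g₁ = -e ((8k²+6) + (4k²+1)² + 4)`, `g₀ = e ((4k²+1)² + 4)`.
The cubic `g₃ Z³ + g₂ Z² + g₁ Z + g₀ = -e (Z-1)(Z² - (8k²+6) Z + (4k²+1)² + 4)` has the roots
`e₁ = 1`, `e₂, e₃ = (4k²+3) ± 2 s₀`, `s₀² = 4k²+1`, distinct and nonzero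
(`e₂ e₃ = (4k²+1)²+4`, `(e₂-1)(e₃-1) = 16 k⁴`, `e₂ - e₃ = 4 s₀`).  Take for `K` a number field
containing `s₀` (e.g. `IntermediateField.adjoin ℚ {s₀}` in `Ω`) and apply MORD; the rational points
are finite in number because `ℚ → K` is injective. -/
def S_MOR : Prop := ∀ k : ℤ, k ≠ 0 → ∃ N : ℕ, ∀ n : ℕ, N ≤ n → ∀ e z : ℤ, e ∣ 2 * k →
  D k n ≠ e * z ^ 2

end Run7.h441.JM
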