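import Pool.Agent.Run7.h441.JM.Stm
import Pool.Agent.Run7.h441.JM.Mo.Mordell

set_option autoImplicit false

namespace Run7.h441.JM

open Run7.h441.JM.Mo

theorem t_MORD : S_MORD := by
  intro K _ _ g0 g1 g2 g3 e1 e2 e3 h3 k1 k2 k3 h12 h13 h23 hg2 hg1 hg0
  classical
  obtain ⟨φ⟩ : Nonempty (K →+* ℂ) := inferInstance
  have hφ : Function.Injective φ := φ.injective
  letI gc : Gc :=
    { g0 := g0, g1 := g1, g2 := g2, g3 := g3, c1 := φ e1, c2 := φ e2, c3 := φ e3
      hg3 := h3
      hc1 := (map_ne_zero φ).mpr k1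
      hc2 := (map_ne_zero φ).mpr k2
      hc3 := (map_ne_zero φ).mpr k3
      hc12 := fun h => h12 (hφ h)
      hc13 := fun h => h13 (hφ h)
      hc23 := fun h => h23 (hφ h)
      hcg2 := by
        have := congrArg φ hg2
        simpa using this
      hcg1 := by
        have := congrArg φ hg1
        simpa using this
      hcg0 := by
        have := congrArg φ hg0
        simpa using this }
  letI rt : Rts K :=
    { e1 := e1, e2 := e2, e3 := e3, he1 := k1, he2 := k2, he3 := k3, h12 := h12, h13 := h13
      h23 := h23, hg2 := hg2, hg1 := hg1, hg0 := hg0 }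
  have h := mordell K
  exact h

end Run7.h441.JM
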