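import Pool.Agent.Run7.h441.JM.Tree

/-!
# Assembly: `G(φ)` has finite index in `C(φ)`
-/

set_option autoImplicit false

namespace Run7.h441.JM

open OnePoint
open scoped Classical

/-! ### elementary facts on the tree in the coordinate `y` -/

lemma kne {k : ℤ} (hk : k ≠ 0) : (k : Ω) ≠ 0 := by exact_mod_cast hk

lemma child_ne {k : ℤ} (hk : k ≠ 0) {u y : Ω} (h : (k : Ω) * (y ^ 2 - 1) = u * y) : y ≠ 0 := by
  rintro rfl
  have := kne hk
  apply this
  linear_combination -h

lemma child_two {k : ℤ} (hk : k ≠ 0) {u y z : Ω} (h : (k : Ω) * (y ^ 2 - 1) = u * y)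
    (h' : (k : Ω) * (z ^ 2 - 1) = u * z) : z = y ∨ z = -y⁻¹ := by
  have hy := child_ne hk h
  have h1 : (k : Ω) * ((z - y) * (y * z + 1)) = 0 := by
    linear_combination y * h' - z * h
  rcases mul_eq_zero.mp h1 with h2 | h2
  · exact absurd h2 (kne hk)
  · rcases mul_eq_zero.mp h2 with h3 | h3
    · exact Or.inl (sub_eq_zero.mp h3)
    · right
      field_simp
      linear_combination h3

lemma child_map {k : ℤ} (g : Γ) {u y : Ω} (h : (k : Ω) * (y ^ 2 - 1) = u * y) :
    (k : Ω) * ((g y) ^ 2 - 1) = (g u) * (g y) := by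
  have := congrArg g h
  simpa using this

lemma exists_child (k : ℤ) (hk : k ≠ 0) (u : Ω) : ∃ y : Ω, (k : Ω) * (y ^ 2 - 1) = u * y := by
  have hk' := kne hk
  obtain ⟨s, hs⟩ := IsAlgClosed.exists_pow_nat_eq (u ^ 2 + 4 * (k : Ω) ^ 2) (n := 2) (by norm_num)
  refine ⟨(u + s) / (2 * k), ?_⟩
  field_simp
  linear_combination hs

lemma Lev_map {k : ℤ} (g : Γ) {n : ℕ} {y : Ω} (h : Lev k n y) : Lev k n (g y) := by
  induction n generalizing y with
  | zero =>
    have : y = 1 := h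
    show g y = 1
    rw [this, map_one]
  | succ n ih =>
    obtain ⟨u, hu, h⟩ := h
    exact ⟨g u, ih hu, child_map g h⟩

/-- an element of `Γ` that fixes level `n` pointwise fixes all lower levels -/
lemma fix_lower {k : ℤ} (hk : k ≠ 0) (g : Γ) {n : ℕ} (h : ∀ y : Ω, Lev k n y → g y = y) :
    ∀ m ≤ n, ∀ y : Ω, Lev k m y → g y = y := by
  induction n with
  | zero =>
    intro m hm
    obtain rfl := Nat.le_zero.mp hm
    exact h
  | succ n ih =>
    have h' : ∀ y : Ω, Lev k n y → g y = y := by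
      intro u hu
      obtain ⟨y, hy⟩ := exists_child k hk u
      have h1 := h y ⟨u, hu, hy⟩
      have h2 := child_map g hy
      rw [h1, hy] at h2
      exact (mul_right_cancel₀ (child_ne hk hy) h2).symm
    intro m hm
    rcases Nat.lt_or_ge n m with h1 | h1
    · obtain rfl : m = n + 1 := by omega
      exact h
    · exact ih h' m h1

/-! ### levels of `T(φ)` -/

lemma phi_I {k : ℤ} (hk : k ≠ 0) {I : Ω} (hI : I ^ 2 = -1) {u y : Ω}
    (h : (k : Ω) * (y ^ 2 - 1) = u * y) : phi k ((I * y : Ω) : OnePoint Ω) = ((I * u : Ω) : OnePoint Ω) := by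
  have hy := child_ne hk h
  have hI0 : I ≠ 0 := by
    rintro rfl
    norm_num at hI
  rw [phi_coe, if_neg (mul_ne_zero hI0 hy)]
  congr 1
  rw [div_eq_iff (mul_ne_zero hI0 hy), mul_pow, hI]
  linear_combination -h - (u * y) * hI

/-- if `φ(z) = I u` then `z = I y` with `y` a child of `u` -/
lemma phi_I_inv {k : ℤ} {I : Ω} (hI : I ^ 2 = -1) {u : Ω} {z : OnePoint Ω}
    (h : phi k z = ((I * u : Ω) : OnePoint Ω)) :
    ∃ y : Ω, z = ((I * y : Ω) : OnePoint Ω) ∧ (k : Ω) * (y ^ 2 - 1) = u * y := by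
  induction z using OnePoint.rec with
  | infty => exact absurd h (by rw [phi_infty]; exact infty_ne_coe _)
  | coe x =>
    rw [phi_coe] at h
    by_cases hx : x = 0
    · rw [if_pos hx] at h
      exact absurd h (infty_ne_coe _)
    · rw [if_neg hx, OnePoint.coe_eq_coe, div_eq_iff hx] at h
      refine ⟨-(I * x), ?_, ?_⟩
      · rw [OnePoint.coe_eq_coe]
        linear_combination x * hI
      · linear_combination -h + (k : Ω) * x ^ 2 * hI

lemma iter_infty (k : ℤ) (n : ℕ) : (phi k)^[n] ∞ = ∞ := by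
  induction n with
  | zero => rfl
  | succ n ih => rw [Function.iterate_succ_apply, phi_infty, ih]

lemma phi_zero (k : ℤ) : phi k ((0 : Ω) : OnePoint Ω) = ∞ := by
  rw [phi_coe, if_pos rfl]

/-- description of the levels of `T(φ)` -/
lemma level_iff {k : ℤ} (hk : k ≠ 0) {I : Ω} (hI : I ^ 2 = -1) (n : ℕ) (z : OnePoint Ω) :
    (phi k)^[n + 1] z = ((0 : Ω) : OnePoint Ω) ↔ ∃ y : Ω, Lev k n y ∧
      (z = ((I * y : Ω) : OnePoint Ω) ∨ z = (((-I) * y : Ω) : OnePoint Ω)) := by
  have hI' : (-I) ^ 2 = -1 := by rw [neg_sq, hI]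
  induction n generalizing z with
  | zero =>
    rw [Function.iterate_succ_apply]
    simp only [Function.iterate_zero, id]
    constructor
    · intro h
      refine ⟨1, rfl, ?_⟩
      induction z using OnePoint.rec with
      | infty => exact absurd h (by rw [phi_infty]; exact infty_ne_coe _)
      | coe x =>
        rw [phi_coe] at h
        by_cases hx : x = 0
        · rw [if_pos hx] at h
          exact absurd h (infty_ne_coe _)
        · rw [if_neg hx, OnePoint.coe_eq_coe, div_eq_iff hx, zero_mul] at h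
          rcases mul_eq_zero.mp h with h1 | h1
          · exact absurd h1 (kne hk)
          · have h2 : (x - I) * (x + I) = 0 := by linear_combination h1 - hI
            rcases mul_eq_zero.mp h2 with h3 | h3
            · left
              rw [OnePoint.coe_eq_coe]
              linear_combination h3
            · right
              rw [OnePoint.coe_eq_coe]
              linear_combination h3
    · rintro ⟨y, hy, h⟩
      have hy : y = 1 := hy
      subst hy
      have hI0 : I ≠ 0 := by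
        rintro rfl
        norm_num at hI
      rcases h with h | h
      · rw [h, phi_coe, mul_one, if_neg hI0, OnePoint.coe_eq_coe, hI]
        simp
      · rw [h, phi_coe, mul_one, if_neg (neg_ne_zero.mpr hI0), OnePoint.coe_eq_coe, hI']
        simp
  | succ n ih =>
    rw [Function.iterate_succ_apply]
    refine Iff.trans (ih (phi k z)) ?_
    constructor
    · rintro ⟨u, hu, h | h⟩
      · obtain ⟨y, hz, hy⟩ := phi_I_inv hI h
        exact ⟨y, ⟨u, hu, hy⟩, Or.inl hz⟩
      · obtain ⟨y, hz, hy⟩ := phi_I_inv hI' h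
        exact ⟨y, ⟨u, hu, hy⟩, Or.inr hz⟩
    · rintro ⟨y, ⟨u, hu, hy⟩, h | h⟩
      · exact ⟨u, hu, Or.inl (by rw [h, phi_I hk hI hy])⟩
      · exact ⟨u, hu, Or.inr (by rw [h, phi_I hk hI' hy])⟩

/-- the vertex `I y` -/
noncomputable def vtx {k : ℤ} (hk : k ≠ 0) {I : Ω} (hI : I ^ 2 = -1) {n : ℕ} (y : Ω) (hy : Lev k n y) :
    Level k (n + 1) :=
  ⟨((I * y : Ω) : OnePoint Ω), (level_iff hk hI n _).mpr ⟨y, hy, Or.inl rfl⟩⟩

/-! ### the groups -/

/-- the Moebius transformation `x ↦ -x` -/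
noncomputable def negM : GL (Fin 2) Ω :=
  Matrix.GeneralLinearGroup.mkOfDetNeZero !![-1, 0; 0, 1] (by simp)

lemma negM_smul (z : OnePoint Ω) : negM • z = OnePoint.map (fun x : Ω => -x) z := by
  induction z using OnePoint.rec with
  | infty =>
    rw [smul_infty_eq_ite, OnePoint.map_infty, if_pos]
    simp [negM, Matrix.GeneralLinearGroup.mkOfDetNeZero]
  | coe x =>
    rw [smul_some_eq_ite, OnePoint.map_some]
    simp [negM, Matrix.GeneralLinearGroup.mkOfDetNeZero]

lemma phi_neg (k : ℤ) (z : OnePoint Ω) :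
    OnePoint.map (fun x : Ω => -x) (phi k z) = phi k (OnePoint.map (fun x : Ω => -x) z) := by
  induction z using OnePoint.rec with
  | infty => rfl
  | coe x =>
    rw [OnePoint.map_some, phi_coe, phi_coe]
    by_cases hx : x = 0
    · simp [hx]
    · rw [if_neg hx, if_neg (neg_ne_zero.mpr hx), OnePoint.map_some]
      congr 1
      rw [neg_sq, div_neg]

lemma negM_mem (k : ℤ) : negM ∈ A k := by
  refine ⟨?_, fun z => ?_⟩
  · rw [negM_smul, OnePoint.map_some, neg_zero]
  · rw [negM_smul, negM_smul, phi_neg]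

/-- the elements of `A(φ)` are `x ↦ ± x` -/
lemma A_cases {k : ℤ} (hk : k ≠ 0) {μ : GL (Fin 2) Ω} (hμ : μ ∈ A k) :
    ∃ ε : ℤ, ∀ z : OnePoint Ω, μ • z = OnePoint.map (fun x : Ω => (ε : Ω) * x) z := by
  obtain ⟨h0, h1⟩ := hμ
  have hinf : μ • (∞ : OnePoint Ω) = ∞ := by
    rw [← phi_zero k, h1, h0]
  have c : μ 1 0 = 0 := smul_infty_eq_self_iff.mp hinf
  have hdet := μ.det_ne_zero
  rw [Matrix.det_fin_two, c, mul_zero, sub_zero] at hdet
  have d : μ 1 1 ≠ 0 := right_ne_zero_of_mul hdet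
  have a : μ 0 0 ≠ 0 := left_ne_zero_of_mul hdet
  have b : μ 0 1 = 0 := by
    rw [smul_some_eq_ite, c, zero_mul, zero_add, if_neg d, OnePoint.coe_eq_coe, mul_zero,
      zero_add, div_eq_zero_iff] at h0
    exact h0.resolve_right d
  have hs : ∀ x : Ω, μ • (x : OnePoint Ω) = ((μ 0 0 / μ 1 1 * x : Ω) : OnePoint Ω) := by
    intro x
    rw [smul_some_eq_ite, c, zero_mul, zero_add, if_neg d, OnePoint.coe_eq_coe, b, add_zero]
    ring
  set r : Ω := μ 0 0 / μ 1 1 with hr
  have hr0 : r ≠ 0 := div_ne_zero a d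
  have h2 := h1 ((1 : Ω) : OnePoint Ω)
  rw [hs, mul_one, phi_coe, phi_coe, if_neg one_ne_zero, if_neg hr0, hs, OnePoint.coe_eq_coe,
    eq_div_iff hr0] at h2
  have hk' := kne hk
  have h3 : (r - 1) * (r + 1) = 0 := by
    have h4 : (k : Ω) * ((r - 1) * (r + 1)) = 0 := by
      linear_combination h2
    exact (mul_eq_zero.mp h4).resolve_left hk'
  rcases mul_eq_zero.mp h3 with h4 | h4
  · refine ⟨1, fun z => ?_⟩
    induction z using OnePoint.rec with
    | infty => rw [hinf]; rfl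
    | coe x => rw [hs, OnePoint.map_some, sub_eq_zero.mp h4, Int.cast_one]
  · refine ⟨-1, fun z => ?_⟩
    induction z using OnePoint.rec with
    | infty => rw [hinf]; rfl
    | coe x => rw [hs, OnePoint.map_some, eq_neg_of_add_eq_zero_left h4, Int.cast_neg, Int.cast_one]

/-- the family of permutations given by a Galois automorphism -/
noncomputable def ga (k : ℤ) (g : Γ) : ∀ n : ℕ, Equiv.Perm (Level k n) :=
  (MonoidHom.pi fun n : ℕ => MulAction.toPermHom Γ (Level k n)) g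

lemma ga_val {k : ℤ} (g : Γ) (n : ℕ) (z : Level k n) : (ga k g n z).1 = OnePoint.map g z.1 := rfl

lemma ga_mul {k : ℤ} (g h : Γ) (n : ℕ) : ga k (g * h) n = ga k g n * ga k h n := by
  unfold ga
  rw [map_mul, Pi.mul_apply]

lemma ga_mem {k : ℤ} (g : Γ) : ga k g ∈ G k := ⟨g, rfl⟩

theorem G_le_C {k : ℤ} (hk : k ≠ 0) : G k ≤ C k := by
  rintro _ ⟨g, rfl⟩
  refine Subgroup.mem_inf.mpr ⟨?_, Subgroup.mem_centralizer_iff.mpr ?_⟩
  · intro n z
    apply Subtype.ext
    exact phi_map k g z.1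
  · rintro _ ⟨μ, rfl⟩
    obtain ⟨ε, hε⟩ := A_cases hk μ.2
    funext n
    apply Equiv.ext
    intro z
    apply Subtype.ext
    show μ.1 • (OnePoint.map g z.1) = OnePoint.map g (μ.1 • z.1)
    rw [hε, hε]
    rcases z with ⟨z, hz⟩
    induction z using OnePoint.rec with
    | infty => rfl
    | coe x =>
      simp only [OnePoint.map_some]
      rw [map_mul, map_intCast]

/-- elements of `C(φ)` commute with `x ↦ -x` -/
lemma C_neg {k : ℤ} {σ : ∀ n : ℕ, Equiv.Perm (Level k n)} (hσ : σ ∈ C k) (n : ℕ)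
    {z w : Level k n} (h : w.1 = OnePoint.map (fun x : Ω => -x) z.1) :
    (σ n w).1 = OnePoint.map (fun x : Ω => -x) (σ n z).1 := by
  have h1 := Subgroup.mem_centralizer_iff.mp hσ.2
    ((MonoidHom.pi fun n : ℕ => MulAction.toPermHom (A k) (Level k n)) ⟨negM, negM_mem k⟩)
    ⟨⟨negM, negM_mem k⟩, rfl⟩
  have h2 := congrArg (fun τ : ∀ n : ℕ, Equiv.Perm (Level k n) => (τ n z).1) h1
  have h3 : negM • (σ n z).1 = (σ n ((⟨negM, negM_mem k⟩ : A k) • z : Level k n)).1 := h2
  have h4 : ((⟨negM, negM_mem k⟩ : A k) • z : Level k n) = w := by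
    apply Subtype.ext
    rw [h]
    exact negM_smul z.1
  rw [h4, negM_smul] at h3
  exact h3.symm

/-- two elements of `C(φ)` that agree on the vertices `I y` of a level agree on the level -/
lemma ext_level {k : ℤ} (hk : k ≠ 0) {I : Ω} (hI : I ^ 2 = -1)
    {σ τ : ∀ n : ℕ, Equiv.Perm (Level k n)} (hσ : σ ∈ C k) (hτ : τ ∈ C k) (n : ℕ)
    (h : ∀ (y : Ω) (hy : Lev k n y), σ (n + 1) (vtx hk hI y hy) = τ (n + 1) (vtx hk hI y hy)) :
    σ (n + 1) = τ (n + 1) := by
  apply Equiv.ext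
  intro z
  obtain ⟨y, hy, hz | hz⟩ := (level_iff hk hI n z.1).mp z.2
  · have : z = vtx hk hI y hy := Subtype.ext hz
    rw [this]
    exact h y hy
  · have h1 : z.1 = OnePoint.map (fun x : Ω => -x) (vtx hk hI y hy).1 := by
      rw [hz]
      show _ = OnePoint.map (fun x : Ω => -x) ((I * y : Ω) : OnePoint Ω)
      rw [OnePoint.map_some, neg_mul]
    apply Subtype.ext
    rw [C_neg hσ _ h1, C_neg hτ _ h1, h y hy]

/-! ### one level -/

/-- the conclusion of SUR at one level -/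
def SwapAt (k : ℤ) (n : ℕ) : Prop := ∀ v : Ω, Lev k n v → ∃ g : Γ, (∀ y : Ω, Lev k n y → g y = y) ∧
    (∀ y : Ω, (k : Ω) * (y ^ 2 - 1) = v * y → g y ≠ y) ∧
    (∀ u y : Ω, Lev k n u → u ≠ v → (k : Ω) * (y ^ 2 - 1) = u * y → g y = y)

/-- any set of pairs of children can be swapped -/
lemma swaps {k : ℤ} {n : ℕ} (hs : SwapAt k n) (S : Finset Ω)
    (hS : ∀ u ∈ S, Lev k n u) : ∃ h : Γ, (∀ y : Ω, Lev k n y → h y = y) ∧
      (∀ u ∈ S, ∀ y : Ω, (k : Ω) * (y ^ 2 - 1) = u * y → h y ≠ y) ∧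
      (∀ u : Ω, Lev k n u → u ∉ S → ∀ y : Ω, (k : Ω) * (y ^ 2 - 1) = u * y → h y = y) := by
  induction S using Finset.induction_on with
  | empty =>
    refine ⟨1, fun y _ => rfl, ?_, fun u _ _ y _ => rfl⟩
    intro u hu
    simp at hu
  | insert v S hv ih =>
    obtain ⟨h, h1, h2, h3⟩ := ih (fun u hu => hS u (Finset.mem_insert_of_mem hu))
    have hvL := hS v (Finset.mem_insert_self v S)
    obtain ⟨g, g1, g2, g3⟩ := hs v hvL
    refine ⟨h * g, ?_, ?_, ?_⟩
    · intro y hy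
      show h (g y) = y
      rw [g1 y hy, h1 y hy]
    · intro u hu y hy
      show h (g y) ≠ y
      rcases Finset.mem_insert.mp hu with rfl | hu
      · have hc := child_map g hy
        rw [g1 u hvL] at hc
        rw [h3 u hvL hv _ hc]
        exact g2 y hy
      · have huv : u ≠ v := fun e => hv (e ▸ hu)
        rw [g3 u y (hS u (Finset.mem_insert_of_mem hu)) huv hy]
        exact h2 u hu y hy
    · intro u hu huS y hy
      show h (g y) = y
      have huv : u ≠ v := fun e => huS (e ▸ Finset.mem_insert_self v S)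
      have huS' : u ∉ S := fun e => huS (Finset.mem_insert_of_mem e)
      rw [g3 u y hu huv hy]
      exact h3 u hu huS' y hy

lemma one_mem_C {k : ℤ} : (1 : ∀ n : ℕ, Equiv.Perm (Level k n)) ∈ C k := Subgroup.one_mem _

/-- a Galois element fixing `I` and level `n` pointwise acts trivially on the levels `≤ n + 1` of
the tree -/
lemma ga_trivial {k : ℤ} (hk : k ≠ 0) {I : Ω} (hI : I ^ 2 = -1) (h : Γ) (hI' : h I = I) {n : ℕ}
    (hn : ∀ y : Ω, Lev k n y → h y = y) : ∀ m ≤ n + 1, ga k h m = 1 := by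
  intro m hm
  rcases m with _ | m
  · apply Equiv.ext
    intro z
    apply Subtype.ext
    have hz : z.1 = ((0 : Ω) : OnePoint Ω) := z.2
    rw [ga_val, hz, OnePoint.map_some, map_zero]
    exact hz.symm
  · have hm' : m ≤ n := by omega
    have := ext_level hk hI (G_le_C hk (ga_mem h)) (one_mem_C (k := k)) m (by
      intro y hy
      apply Subtype.ext
      rw [ga_val]
      show OnePoint.map h ((I * y : Ω) : OnePoint Ω) = ((I * y : Ω) : OnePoint Ω)
      rw [OnePoint.map_some, map_mul, hI', fix_lower hk h hn m hm' y hy])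
    exact this

/-- one step: `τ ∈ C(φ)` trivial on the levels `≤ n + 1` agrees with a Galois element on level
`n + 2` -/
lemma one_step (hPRD : S_PRD) (hCNJ : S_CNJ) {k : ℤ} (hk : k ≠ 0) {I : Ω} (hI : I ^ 2 = -1) {n : ℕ}
    (hs : SwapAt k n) {τ : ∀ n : ℕ, Equiv.Perm (Level k n)} (hτ : τ ∈ C k)
    (h1 : ∀ m ≤ n + 1, τ m = 1) :
    ∃ h : Γ, h I = I ∧ ∀ m ≤ n + 2, τ m = ga k h m := by
  obtain ⟨hfin, -, -⟩ := hPRD k hk n
  set S : Finset Ω := hfin.toFinset.filter (fun u => ∃ (y : Ω) (hy : Lev k (n + 1) y),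
    (k : Ω) * (y ^ 2 - 1) = u * y ∧ τ (n + 2) (vtx hk hI y hy) ≠ vtx hk hI y hy) with hSdef
  have hS : ∀ u ∈ S, Lev k n u := by
    intro u hu
    have := (Finset.mem_filter.mp hu).1
    simpa using this
  obtain ⟨h0, a1, a2, a3⟩ := swaps hs S hS
  obtain ⟨h, hI', b1, b2, b3⟩ : ∃ h : Γ, h I = I ∧ (∀ y : Ω, Lev k n y → h y = y) ∧
      (∀ u ∈ S, ∀ y : Ω, (k : Ω) * (y ^ 2 - 1) = u * y → h y ≠ y) ∧
      (∀ u : Ω, Lev k n u → u ∉ S → ∀ y : Ω, (k : Ω) * (y ^ 2 - 1) = u * y → h y = y) := by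
    have hh : (h0 I - I) * (h0 I + I) = 0 := by
      have : (h0 I) ^ 2 = -1 := by rw [← map_pow, hI, map_neg, map_one]
      linear_combination this - hI
    rcases mul_eq_zero.mp hh with e | e
    · exact ⟨h0, sub_eq_zero.mp e, a1, a2, a3⟩
    · obtain ⟨c, c1, c2⟩ := hCNJ k hk I hI
      refine ⟨h0 * c, ?_, ?_, ?_, ?_⟩
      · show h0 (c I) = I
        rw [c1, map_neg, eq_neg_of_add_eq_zero_left e, neg_neg]
      · intro y hy
        show h0 (c y) = y
        rw [c2 n y hy, a1 y hy]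
      · intro u hu y hy
        show h0 (c y) ≠ y
        rw [c2 (n + 1) y ⟨u, hS u hu, hy⟩]
        exact a2 u hu y hy
      · intro u hu huS y hy
        show h0 (c y) = y
        rw [c2 (n + 1) y ⟨u, hu, hy⟩]
        exact a3 u hu huS y hy
  refine ⟨h, hI', ?_⟩
  intro m hm
  rcases Nat.lt_or_ge (n + 1) m with hm1 | hm1
  swap
  · rw [h1 m hm1, ga_trivial hk hI h hI' b1 m hm1]
  obtain rfl : m = n + 1 + 1 := by omega
  apply ext_level hk hI hτ (G_le_C hk (ga_mem h)) (n + 1)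
  intro y hy
  obtain ⟨u, hu, hyu⟩ := hy
  -- the image of `I y` under `τ`
  have key : ∀ (y : Ω) (hy : Lev k (n + 1) y), (k : Ω) * (y ^ 2 - 1) = u * y →
      (τ (n + 2) (vtx hk hI y hy)).1 = ((I * y : Ω) : OnePoint Ω) ∨
      (τ (n + 2) (vtx hk hI y hy)).1 = ((I * (-y⁻¹) : Ω) : OnePoint Ω) := by
    intro y hy hyu
    have hp : parent k (n + 1) (vtx hk hI y hy) = vtx hk hI u hu := by
      apply Subtype.ext
      exact phi_I hk hI hyu
    have h2 := hτ.1 (n + 1) (vtx hk hI y hy)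
    rw [hp, h1 (n + 1) le_rfl] at h2
    have h3 : phi k (τ (n + 2) (vtx hk hI y hy)).1 = ((I * u : Ω) : OnePoint Ω) :=
      congrArg Subtype.val h2
    obtain ⟨y', hy', hc⟩ := phi_I_inv hI h3
    rcases child_two hk hyu hc with e | e
    · left; rw [hy', e]
    · right; rw [hy', e]
  have hy : Lev k (n + 1) y := ⟨u, hu, hyu⟩
  apply Subtype.ext
  have hga : (ga k h (n + 1 + 1) (vtx hk hI y hy)).1 = ((I * h y : Ω) : OnePoint Ω) := by
    rw [ga_val]
    show OnePoint.map h ((I * y : Ω) : OnePoint Ω) = _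
    rw [OnePoint.map_some, map_mul, hI']
  rw [hga]
  have hhy : h y = y ∨ h y = -y⁻¹ := by
    have := child_map h hyu
    rw [b1 u hu] at this
    exact child_two hk hyu this
  by_cases huS : u ∈ S
  · have hne := b2 u huS y hyu
    rw [hhy.resolve_left hne]
    obtain ⟨y0, hy0, hyu0, hne0⟩ := (Finset.mem_filter.mp huS).2
    have hmoved : τ (n + 2) (vtx hk hI y hy) ≠ vtx hk hI y hy := by
      rcases child_two hk hyu0 hyu with e | e
      · subst e
        exact hne0
      · intro hfix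
        rcases key y0 hy0 hyu0 with e1 | e1
        · exact hne0 (Subtype.ext e1)
        · have e2 : τ (n + 2) (vtx hk hI y0 hy0) = vtx hk hI y hy := by
            apply Subtype.ext
            rw [e1]
            show _ = ((I * y : Ω) : OnePoint Ω)
            rw [e]
          rw [← hfix] at e2
          have e3 := (τ (n + 2)).injective e2
          apply hne0
          rw [e3, hfix]
    rcases key y hy hyu with e1 | e1
    · exact absurd (Subtype.ext e1) hmoved
    · exact e1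
  · rw [b3 u hu huS y hyu]
    by_contra hne
    apply huS
    refine Finset.mem_filter.mpr ⟨by simpa using hu, y, hy, hyu, ?_⟩
    intro e
    apply hne
    rw [e]
    rfl

/-! ### all finite levels -/

lemma all_levels (hPRD : S_PRD) (hCNJ : S_CNJ) {k : ℤ} (hk : k ≠ 0) {I : Ω} (hI : I ^ 2 = -1)
    {N : ℕ} (hs : ∀ n, N ≤ n → SwapAt k n) {σ : ∀ n : ℕ, Equiv.Perm (Level k n)} (hσ : σ ∈ C k)
    (h1 : ∀ m ≤ N + 1, σ m = 1) (j : ℕ) :
    ∃ g : Γ, g I = I ∧ ∀ m ≤ N + j + 1, σ m = ga k g m := by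
  induction j with
  | zero =>
    refine ⟨1, rfl, fun m hm => ?_⟩
    rw [h1 m hm]
    exact (ga_trivial hk hI (1 : Γ) rfl (n := N) (fun y _ => rfl) m hm).symm
  | succ j ih =>
    obtain ⟨g, gI, hg⟩ := ih
    have hτ : (ga k g)⁻¹ * σ ∈ C k := mul_mem (inv_mem (G_le_C hk (ga_mem g))) hσ
    obtain ⟨h, hI', hh⟩ := one_step hPRD hCNJ hk hI (hs (N + j) (by omega)) hτ (by
      intro m hm
      rw [Pi.mul_apply, Pi.inv_apply, hg m hm, inv_mul_cancel])
    refine ⟨g * h, ?_, ?_⟩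
    · show g (h I) = I
      rw [hI', gI]
    · intro m hm
      have := hh m (by omega)
      rw [Pi.mul_apply, Pi.inv_apply, inv_mul_eq_iff_eq_mul] at this
      rw [this, ga_mul]

/-- level `m` as a subset of `ℚ̄` -/
def inLev (k : ℤ) (m : ℕ) (x : Ω) : Prop := (phi k)^[m] (x : OnePoint Ω) = ((0 : Ω) : OnePoint Ω)

/-- the vertex given by `x` -/
noncomputable def mkL {k : ℤ} {m : ℕ} (x : Ω) (hx : inLev k m x) : Level k m :=
  ⟨(x : OnePoint Ω), hx⟩

lemma mkL_val {k : ℤ} {m : ℕ} (x : Ω) (hx : inLev k m x) : (mkL x hx).1 = (x : OnePoint Ω) := rfl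

lemma level_coe {k : ℤ} {m : ℕ} (z : Level k m) : ∃ x : Ω, z.1 = (x : OnePoint Ω) := by
  rcases z with ⟨z, hz⟩
  induction z using OnePoint.rec with
  | infty =>
    rw [iter_infty] at hz
    exact absurd hz (infty_ne_coe _)
  | coe x => exact ⟨x, rfl⟩

lemma mem_G (hPRD : S_PRD) (hCNJ : S_CNJ) (hCMP : S_CMP) {k : ℤ} (hk : k ≠ 0) {I : Ω}
    (hI : I ^ 2 = -1) {N : ℕ} (hs : ∀ n, N ≤ n → SwapAt k n)
    {σ : ∀ n : ℕ, Equiv.Perm (Level k n)} (hσ : σ ∈ C k) (h1 : ∀ m ≤ N + 1, σ m = 1) :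
    σ ∈ G k := by
  choose g hgI hg using all_levels hPRD hCNJ hk hI hs hσ h1
  set f : Ω → Ω := fun x => if h : ∃ m, inLev k m x then g (Nat.find h) x else x with hf
  have hval : ∀ (m j : ℕ) (x : Ω) (hx : inLev k m x), m ≤ N + j + 1 →
      (σ m (mkL x hx)).1 = ((g j x : Ω) : OnePoint Ω) := by
    intro m j x hx hm
    rw [hg j m hm, ga_val, mkL_val, OnePoint.map_some]
  have hB : ∀ (n : ℕ), ∀ x ∈ {x : Ω | ∃ m ≤ N + n + 1, inLev k m x}, g n x = f x := by
    rintro n x ⟨m, hm, hx⟩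
    have hex : ∃ m, inLev k m x := ⟨m, hx⟩
    have hfx : f x = g (Nat.find hex) x := by
      rw [hf]
      simp only
      rw [dif_pos hex]
    rw [hfx]
    have hle : Nat.find hex ≤ m := Nat.find_min' hex hx
    have e1 := hval (Nat.find hex) n x (Nat.find_spec hex) (by omega)
    have e2 := hval (Nat.find hex) (Nat.find hex) x (Nat.find_spec hex) (by omega)
    rw [e1] at e2
    exact OnePoint.coe_injective e2
  obtain ⟨γ, hγ⟩ := hCMP (fun n => {x : Ω | ∃ m ≤ N + n + 1, inLev k m x}) f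
    (by
      intro a b hab x hx
      obtain ⟨m, hm, hx⟩ := hx
      exact ⟨m, by omega, hx⟩)
    (fun n => ⟨g n, hB n⟩)
  have : σ = ga k γ := by
    funext m
    apply Equiv.ext
    intro z
    obtain ⟨x, hx⟩ := level_coe z
    have hxl : inLev k m x := by
      have := z.2
      rwa [hx] at this
    have hz : z = mkL x hxl := Subtype.ext hx
    apply Subtype.ext
    rw [hz, hval m m x hxl (by omega), ga_val, mkL_val, OnePoint.map_some]
    have hmem : x ∈ {x : Ω | ∃ m' ≤ N + m + 1, inLev k m' x} := ⟨m, by omega, hxl⟩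
    rw [hB m x hmem, hγ m x hmem]
  rw [this]
  exact ga_mem γ

lemma level_finite (hPRD : S_PRD) {k : ℤ} (hk : k ≠ 0) (n : ℕ) : Finite (Level k n) := by
  rcases n with _ | n
  · have : Subsingleton (Level k 0) := ⟨fun a b => Subtype.ext (a.2.trans b.2.symm)⟩
    infer_instance
  · obtain ⟨I, hI⟩ := IsAlgClosed.exists_pow_nat_eq (-1 : Ω) (n := 2) (by norm_num)
    obtain ⟨hfin, -, -⟩ := hPRD k hk n
    have h2 : {z : OnePoint Ω | (phi k)^[n + 1] z = ((0 : Ω) : OnePoint Ω)}.Finite := by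
      refine ((hfin.image (fun y : Ω => ((I * y : Ω) : OnePoint Ω))).union
        (hfin.image (fun y : Ω => (((-I) * y : Ω) : OnePoint Ω)))).subset ?_
      intro z hz
      obtain ⟨y, hy, h | h⟩ := (level_iff hk hI n z).mp hz
      · exact Or.inl ⟨y, hy, h.symm⟩
      · exact Or.inr ⟨y, hy, h.symm⟩
    exact h2.to_subtype

/-- **The index `[C(φ) : G(φ)]` is finite.** -/
theorem fin_index (hPRD : S_PRD) (hSUR : S_SUR) (hMOR : S_MOR) (hCNJ : S_CNJ) (hCMP : S_CMP)
    (k : ℤ) (hk : k ≠ 0) : G k ≤ C k ∧ (G k).relIndex (C k) ≠ 0 := by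
  refine ⟨G_le_C hk, ?_⟩
  obtain ⟨I, hI⟩ := IsAlgClosed.exists_pow_nat_eq (-1 : Ω) (n := 2) (by norm_num)
  obtain ⟨N, hN⟩ := hMOR k hk
  have hs : ∀ n, N ≤ n → SwapAt k n := fun n hn v hv =>
    hSUR k hk n (fun e z he => hN (n + 1) (by omega) e z he) v hv
  have hfinL : ∀ n, Finite (Level k n) := level_finite hPRD hk
  let π : (∀ n : ℕ, Equiv.Perm (Level k n)) →* (∀ m : Fin (N + 2), Equiv.Perm (Level k m)) :=
    MonoidHom.pi fun m => Pi.evalMonoidHom (fun n : ℕ => Equiv.Perm (Level k n)) m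
  have hfin : Finite (∀ m : Fin (N + 2), Equiv.Perm (Level k m)) := inferInstance
  have hker : π.ker ⊓ C k ≤ G k := by
    rintro σ ⟨h1, h2⟩
    apply mem_G hPRD hCNJ hCMP hk hI hs h2
    intro m hm
    have h3 : π σ = 1 := h1
    exact congrFun h3 ⟨m, by omega⟩
  have hfi : (π.ker).FiniteIndex := inferInstance
  have h4 : (π.ker).relIndex (C k) ≠ 0 := by
    have : ((π.ker).subgroupOf (C k)).FiniteIndex := inferInstance
    exact this.index_ne_zero
  have h5 := Subgroup.relIndex_dvd_of_le_left (C k) hker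
  rw [Subgroup.inf_relIndex_right] at h5
  intro h6
  rw [h6] at h5
  exact h4 (Nat.eq_zero_of_zero_dvd h5)

end Run7.h441.JM
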