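import Pool.Agent.Run7.h441.JM.Stm

/-!
# The tree `T(φ)`, the groups `G(φ)`, `A(φ)`, `C(φ)` for `φ(x) = k (x² + 1) / x`
-/

set_option autoImplicit false

namespace Run7.h441.JM

open OnePoint
open scoped Classical

/-- the rational map `φ(x) = k (x² + 1) / x` on the projective line `ℙ¹(ℚ̄) = ℚ̄ ∪ {∞}` -/
noncomputable def phi (k : ℤ) (z : OnePoint (AlgebraicClosure ℚ)) :
    OnePoint (AlgebraicClosure ℚ) :=
  z.elim ∞ (fun x => if x = 0 then ∞
    else (((k : AlgebraicClosure ℚ) * (x ^ 2 + 1) / x : AlgebraicClosure ℚ) :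
      OnePoint (AlgebraicClosure ℚ)))

/-- level `n` of the preimage tree `T(φ)`: the points `z` of `ℙ¹(ℚ̄)` with `φⁿ(z) = 0` -/
def Level (k : ℤ) (n : ℕ) : Type :=
  {z : OnePoint (AlgebraicClosure ℚ) //
    (phi k)^[n] z = ((0 : AlgebraicClosure ℚ) : OnePoint (AlgebraicClosure ℚ))}

/-- the parent of a vertex `z` of level `n + 1` is `φ(z)` -/
noncomputable def parent (k : ℤ) (n : ℕ) (z : Level k (n + 1)) : Level k n :=
  ⟨phi k z.1, by
    have h := z.2
    rwa [Function.iterate_succ_apply] at h⟩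

/-- `Aut(T(φ))`: families of permutations of the levels compatible with the parent maps -/
def AutT (k : ℤ) : Subgroup (∀ n : ℕ, Equiv.Perm (Level k n)) where
  carrier := {σ | ∀ (n : ℕ) (z : Level k (n + 1)), parent k n (σ (n + 1) z) = σ n (parent k n z)}
  mul_mem' := by
    intro σ τ hσ hτ n z
    simp only [Pi.mul_apply, Equiv.Perm.mul_apply]
    rw [hσ, hτ]
  one_mem' := by
    intro n z
    rfl
  inv_mem' := by
    intro σ hσ n z
    simp only [Pi.inv_apply]
    rw [Equiv.Perm.eq_inv_iff_eq, ← hσ]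
    congr 1
    exact Equiv.apply_symm_apply _ _

lemma phi_infty (k : ℤ) : phi k ∞ = ∞ := rfl

lemma phi_coe (k : ℤ) (x : Ω) : phi k (x : OnePoint Ω) = if x = 0 then ∞
    else (((k : Ω) * (x ^ 2 + 1) / x : Ω) : OnePoint Ω) := rfl

/-- the Galois group acts on `ℙ¹(ℚ̄)` and commutes with `φ` -/
lemma phi_map (k : ℤ) (g : Γ) (z : OnePoint Ω) :
    phi k (OnePoint.map g z) = OnePoint.map g (phi k z) := by
  induction z using OnePoint.rec with
  | infty => rfl
  | coe x =>
    rw [OnePoint.map_some, phi_coe, phi_coe]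
    by_cases hx : x = 0
    · simp [hx]
    · have : g x ≠ 0 := (map_ne_zero g).mpr hx
      rw [if_neg hx, if_neg this, OnePoint.map_some]
      simp

lemma iter_map (k : ℤ) (g : Γ) (n : ℕ) (z : OnePoint Ω) :
    (phi k)^[n] (OnePoint.map g z) = OnePoint.map g ((phi k)^[n] z) := by
  induction n generalizing z with
  | zero => rfl
  | succ n ih => rw [Function.iterate_succ_apply, Function.iterate_succ_apply, phi_map, ih]

/-- the action of the Galois group on the levels of `T(φ)` -/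
noncomputable instance galAct (k : ℤ) (n : ℕ) :
    MulAction (AlgebraicClosure ℚ ≃ₐ[ℚ] AlgebraicClosure ℚ) (Level k n) where
  smul g z := ⟨OnePoint.map g z.1, by
    rw [iter_map, z.2, OnePoint.map_some, map_zero]⟩
  one_smul z := by
    apply Subtype.ext
    show OnePoint.map (1 : Γ) z.1 = z.1
    induction z.1 using OnePoint.rec <;> rfl
  mul_smul g h z := by
    apply Subtype.ext
    show OnePoint.map (g * h : Γ) z.1 = OnePoint.map g (OnePoint.map h z.1)
    induction z.1 using OnePoint.rec <;> rfl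

/-- the arboreal Galois group `G(φ)`: the image of `Gal(ℚ̄/ℚ)` in the product of the permutation
groups of the levels -/
noncomputable def G (k : ℤ) : Subgroup (∀ n : ℕ, Equiv.Perm (Level k n)) :=
  (MonoidHom.pi fun n : ℕ =>
    MulAction.toPermHom (AlgebraicClosure ℚ ≃ₐ[ℚ] AlgebraicClosure ℚ) (Level k n)).range

/-- the group `A(φ)` of Moebius transformations `μ` (over `ℚ̄`) with `μ(0) = 0` and
`μ ∘ φ = φ ∘ μ` -/
noncomputable def A (k : ℤ) : Subgroup (GL (Fin 2) (AlgebraicClosure ℚ)) where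
  carrier := {μ | μ • ((0 : AlgebraicClosure ℚ) : OnePoint (AlgebraicClosure ℚ))
      = ((0 : AlgebraicClosure ℚ) : OnePoint (AlgebraicClosure ℚ)) ∧
    ∀ z : OnePoint (AlgebraicClosure ℚ), μ • phi k z = phi k (μ • z)}
  mul_mem' := by
    rintro μ ν ⟨hμ, hμ'⟩ ⟨hν, hν'⟩
    refine ⟨by rw [mul_smul, hν, hμ], fun z => ?_⟩
    rw [mul_smul, mul_smul, hν', hμ']
  one_mem' := ⟨one_smul _ _, fun z => by rw [one_smul, one_smul]⟩
  inv_mem' := by
    rintro μ ⟨hμ, hμ'⟩
    refine ⟨by rw [inv_smul_eq_iff, hμ], fun z => ?_⟩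
    rw [inv_smul_eq_iff, hμ', smul_inv_smul]

lemma iter_smul (k : ℤ) (μ : A k) (n : ℕ) (z : OnePoint Ω) :
    (phi k)^[n] (μ.1 • z) = μ.1 • ((phi k)^[n] z) := by
  induction n generalizing z with
  | zero => rfl
  | succ n ih => rw [Function.iterate_succ_apply, Function.iterate_succ_apply, ← μ.2.2, ih]

/-- the action of `A(φ)` on the levels of `T(φ)` -/
noncomputable instance mobAct (k : ℤ) (n : ℕ) : MulAction (A k) (Level k n) where
  smul μ z := ⟨μ.1 • z.1, by
    rw [iter_smul, z.2]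
    exact μ.2.1⟩
  one_smul z := Subtype.ext (one_smul _ z.1)
  mul_smul μ ν z := Subtype.ext (mul_smul μ.1 ν.1 z.1)

/-- `C(φ)`: the centralizer of `A(φ)` in `Aut(T(φ))` -/
noncomputable def C (k : ℤ) : Subgroup (∀ n : ℕ, Equiv.Perm (Level k n)) :=
  AutT k ⊓ Subgroup.centralizer
    ((MonoidHom.pi fun n : ℕ => MulAction.toPermHom (A k) (Level k n)).range :
      Set (∀ n : ℕ, Equiv.Perm (Level k n)))

end Run7.h441.JM
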